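import Pool.Agent.H960.FV.Bas

/-!
Project FV (helper960): exponential moment of the exploration, induction over the levels.
-/

open MeasureTheory Filter Topology

namespace Pool.Agent.H152.FV

open H960FV

section dep

variable {I Sg : Type} [Finite Sg] [MeasurableSpace Sg] [MeasurableSingletonClass Sg]

open Classical in
/-- extension of a configuration on a finite set -/
noncomputable def extd (K : Finset I) (ω0 : I → Sg) (x : K → Sg) : I → Sg :=
  fun i => if h : i ∈ K then x ⟨i, h⟩ else ω0 i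

/-- a function of finitely many coordinates is integrable -/
theorem int_of_dep (f : (I → Sg) → ℝ) (K : Finset I) (ω0 : I → Sg)
    (h : ∀ ω ω' : I → Sg, (∀ k ∈ K, ω k = ω' k) → f ω = f ω')
    (μ : Measure (I → Sg)) [IsFiniteMeasure μ] : Integrable f μ := by
  have h1 : f = (fun x : K → Sg => f (extd K ω0 x)) ∘ (fun (ω : I → Sg) (k : K) => ω k) := by
    funext ω
    simp only [Function.comp]
    apply h
    intro k hk
    simp [extd, hk]
  have hm : Measurable (fun (ω : I → Sg) (k : K) => ω k) := by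
    rw [measurable_pi_iff]
    intro k
    exact measurable_pi_apply _
  rw [h1]
  exact Integrable.comp_measurable (Integrable.of_finite) hm

end dep

section glue

variable {d : ℕ} {Sg : Type}

/-- the noise with the level zero `z.1` and the noise `z.2` above -/
def glue (z : (Z d → Sg) × (Z d × ℕ → Sg)) : Z d × ℕ → Sg
  | (x, 0) => z.1 x
  | (x, i + 1) => z.2 (x, i)

theorem glue_meas [MeasurableSpace Sg] :
    Measurable (glue : (Z d → Sg) × (Z d × ℕ → Sg) → Z d × ℕ → Sg) := by
  rw [measurable_pi_iff]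
  rintro ⟨x, i⟩
  cases i with
  | zero => exact (measurable_pi_apply x).comp measurable_fst
  | succ i => exact (measurable_pi_apply (x, i)).comp measurable_snd

theorem glue_mp [MeasurableSpace Sg] (ν : Measure Sg) [IsProbabilityMeasure ν] :
    MeasurePreserving (glue : (Z d → Sg) × (Z d × ℕ → Sg) → Z d × ℕ → Sg)
      ((Measure.infinitePi fun _ : Z d => ν).prod (Measure.infinitePi fun _ : Z d × ℕ => ν))
      (Measure.infinitePi fun _ : Z d × ℕ => ν) := by
  classical
  refine ⟨glue_meas, ?_⟩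
  refine Measure.eq_infinitePi _ ?_
  intro s t ht
  have he0 : Function.Injective (fun x : Z d => ((x, 0) : Z d × ℕ)) := by
    intro x y h
    simpa using h
  have he1 : Function.Injective (fun a : Z d × ℕ => ((a.1, a.2 + 1) : Z d × ℕ)) := by
    rintro ⟨x, i⟩ ⟨y, j⟩ h
    simpa using h
  have hms : MeasurableSet (Set.pi (s : Set (Z d × ℕ)) t) :=
    MeasurableSet.pi s.countable_toSet (fun i _ => ht i)
  rw [Measure.map_apply glue_meas hms]
  set s0 : Finset (Z d) := s.preimage (fun x : Z d => ((x, 0) : Z d × ℕ)) he0.injOn with hs0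
  set s1 : Finset (Z d × ℕ) :=
    s.preimage (fun a : Z d × ℕ => ((a.1, a.2 + 1) : Z d × ℕ)) he1.injOn with hs1
  have hpre : (glue : (Z d → Sg) × (Z d × ℕ → Sg) → Z d × ℕ → Sg) ⁻¹'
      (Set.pi (s : Set (Z d × ℕ)) t) =
      (Set.pi (s0 : Set (Z d)) (fun x => t (x, 0))) ×ˢ
        (Set.pi (s1 : Set (Z d × ℕ)) (fun a => t (a.1, a.2 + 1))) := by
    ext z
    constructor
    · intro h
      refine ⟨?_, ?_⟩
      · intro x hx
        have hx' : (x, 0) ∈ s := by
          have := Finset.mem_coe.1 hx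
          rw [hs0, Finset.mem_preimage] at this
          exact this
        exact h (x, 0) hx'
      · rintro ⟨x, i⟩ hx
        have hx' : (x, i + 1) ∈ s := by
          have := Finset.mem_coe.1 hx
          rw [hs1, Finset.mem_preimage] at this
          exact this
        exact h (x, i + 1) hx'
    · rintro ⟨h0, h1⟩ ⟨x, i⟩ hx
      cases i with
      | zero =>
        refine h0 x ?_
        rw [hs0]
        exact Finset.mem_coe.2 (Finset.mem_preimage.2 (Finset.mem_coe.1 hx))
      | succ i =>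
        refine h1 (x, i) ?_
        rw [hs1]
        exact Finset.mem_coe.2 (Finset.mem_preimage.2 (Finset.mem_coe.1 hx))
  rw [hpre, Measure.prod_prod, Measure.infinitePi_pi _ (fun i _ => ht _),
    Measure.infinitePi_pi _ (fun i _ => ht _)]
  rw [hs0, hs1, Finset.prod_preimage' (fun x : Z d => ((x, 0) : Z d × ℕ)) s he0.injOn
      (fun a => ν (t a)),
    Finset.prod_preimage' (fun a : Z d × ℕ => ((a.1, a.2 + 1) : Z d × ℕ)) s he1.injOn
      (fun a => ν (t a))]
  rw [← Finset.prod_filter_mul_prod_filter_not s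
    (fun a => a ∈ Set.range (fun x : Z d => ((x, 0) : Z d × ℕ)))]
  congr 1
  refine Finset.prod_congr (Finset.filter_congr ?_) (fun _ _ => rfl)
  rintro ⟨x, i⟩ _
  cases i with
  | zero => simp
  | succ i => simp

end glue

section main

variable {d : ℕ} {Sg St : Type}

theorem ex_sub (ρ : ℕ) (β : Z d → ℕ → Prop) (V : Finset (Z d)) (i : ℕ) :
    ex ρ β V i ⊆ th V (3 * ρ * i) := by
  induction i with
  | zero =>
    intro x hx
    rw [mem_th]
    exact ⟨x, hx, by simpa using zero_mem_bx⟩
  | succ i ih =>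
    intro x hx
    rw [ex, mem_th] at hx
    obtain ⟨v, hv, hxv⟩ := hx
    obtain ⟨u, hu, hvu⟩ := mem_th.1 (ih (mem_bp.1 hv).1)
    rw [mem_th]
    refine ⟨u, hu, ?_⟩
    have h1 := bx_trans hxv hvu
    have h2 : 3 * ρ + 3 * ρ * i = 3 * ρ * (i + 1) := by ring
    rwa [h2] at h1

theorem ex_dep (G : (Z d → Sg) → (Z d → St) → St) (ρ : ℕ) (hG : IsLoc ρ G) (V : Finset (Z d))
    (k : ℕ) (B B' : Z d × ℕ → Sg)
    (h : ∀ a ∈ (th V (3 * ρ * k + ρ)) ×ˢ (Finset.range k), B a = B' a) (i : ℕ) (hi : i ≤ k) :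
    ex ρ (bf G B) V i = ex ρ (bf G B') V i ∧
      (i < k → bp (bf G B) i (ex ρ (bf G B) V i) = bp (bf G B') i (ex ρ (bf G B') V i)) := by
  have key : ∀ i < k, ex ρ (bf G B) V i = ex ρ (bf G B') V i →
      bp (bf G B) i (ex ρ (bf G B) V i) = bp (bf G B') i (ex ρ (bf G B') V i) := by
    intro i hi he
    ext u
    rw [mem_bp, mem_bp, ← he]
    refine and_congr_right (fun hu => ?_)
    refine bf_congr hG (fun y hy => h _ ?_)
    rw [Finset.mem_product]
    refine ⟨?_, Finset.mem_range.2 hi⟩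
    obtain ⟨v, hv, huv⟩ := mem_th.1 (ex_sub ρ (bf G B) V i hu)
    rw [mem_th]
    refine ⟨v, hv, ?_⟩
    have h1 : u + y - v = (u - v) + y := by abel
    simp only
    rw [h1]
    refine bx_add (bx_mono ?_ huv) hy
    exact Nat.mul_le_mul_left _ hi.le
  induction i with
  | zero => exact ⟨rfl, fun h0 => key 0 h0 rfl⟩
  | succ i ih =>
    obtain ⟨h1, h2⟩ := ih (by omega)
    have h3 : ex ρ (bf G B) V (i + 1) = ex ρ (bf G B') V (i + 1) := by
      rw [ex, ex, h2 (by omega)]
    exact ⟨h3, fun h4 => key _ h4 h3⟩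

theorem bn_dep (G : (Z d → Sg) → (Z d → St) → St) (ρ : ℕ) (hG : IsLoc ρ G) (V : Finset (Z d))
    (k : ℕ) (B B' : Z d × ℕ → Sg)
    (h : ∀ a ∈ (th V (3 * ρ * k + ρ)) ×ˢ (Finset.range k), B a = B' a) :
    bn ρ (bf G B) V k = bn ρ (bf G B') V k := by
  unfold bn
  refine Finset.sum_congr rfl (fun i hi => ?_)
  have hi' := Finset.mem_range.1 hi
  rw [(ex_dep G ρ hG V k B B' h i hi'.le).2 hi']

theorem bp0_dep (G : (Z d → Sg) → (Z d → St) → St) (ρ : ℕ) (hG : IsLoc ρ G) (V : Finset (Z d))
    (a a' : Z d → Sg) (h : ∀ x ∈ th V ρ, a x = a' x) :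
    bp (fun u _ => Bd G (fun x => a (u + x))) 0 V =
      bp (fun u _ => Bd G (fun x => a' (u + x))) 0 V := by
  ext u
  rw [mem_bp, mem_bp]
  refine and_congr_right (fun hu => ?_)
  unfold Bd
  have key : ∀ s, G (fun x => a (u + x)) s = G (fun x => a' (u + x)) s := by
    intro s
    refine hG _ _ _ _ (fun x hx => h _ ?_) (fun _ _ => rfl)
    rw [mem_th]
    exact ⟨u, hu, by simpa using hx⟩
  simp only [key]

theorem ex_shift (ρ : ℕ) (β : Z d → ℕ → Prop) (V : Finset (Z d)) (i : ℕ) :
    ex ρ β V (i + 1) = ex ρ (fun u j => β u (j + 1)) (th (bp β 0 V) (3 * ρ)) i := by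
  induction i with
  | zero => rfl
  | succ i ih =>
    rw [ex, ih, ex]
    rfl

theorem bn_shift (ρ : ℕ) (β : Z d → ℕ → Prop) (V : Finset (Z d)) (k : ℕ) :
    bn ρ β V (k + 1) = (bp β 0 V).card +
      bn ρ (fun u j => β u (j + 1)) (th (bp β 0 V) (3 * ρ)) k := by
  unfold bn
  rw [Finset.sum_range_succ', add_comm]
  congr 1
  refine Finset.sum_congr rfl (fun i _ => ?_)
  rw [ex_shift]
  rfl

theorem bn_glue (G : (Z d → Sg) → (Z d → St) → St) (ρ : ℕ) (V : Finset (Z d)) (k : ℕ)
    (a : Z d → Sg) (B : Z d × ℕ → Sg) :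
    bn ρ (bf G (glue (a, B))) V (k + 1) =
      (bp (fun u _ => Bd G (fun x => a (u + x))) 0 V).card +
        bn ρ (bf G B) (th (bp (fun u _ => Bd G (fun x => a (u + x))) 0 V) (3 * ρ)) k := by
  rw [bn_shift]
  rfl

end main

theorem T4b (h : S_T4a) : S_T4b := by
  intro d Sg St _ _ _ ν _ G ρ hG p hp hsmall V k
  have hp0 : 0 ≤ p := le_trans measureReal_nonneg hp
  obtain ⟨g0⟩ : Nonempty Sg := nonempty_of_isProbabilityMeasure ν
  have hm : (0 : ℝ) < (2 * (ρ : ℝ) + 1) ^ d := by positivity
  set m : ℝ := (2 * (ρ : ℝ) + 1) ^ d with hmdef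
  set L : ℝ := (6 * (ρ : ℝ) + 1) ^ d with hL
  have hL0 : 0 < L := by positivity
  have hlog : 0 < Real.log 2 := Real.log_pos (by norm_num)
  induction k generalizing V with
  | zero =>
    have h1 : ∀ B : Z d × ℕ → Sg, Real.exp (Real.log 2 / m * (bn ρ (bf G B) V 0 : ℝ)) = 1 := by
      intro B
      simp [bn]
    simp only [h1]
    rw [integral_const]
    simp only [probReal_univ, smul_eq_mul, mul_one]
    exact Real.one_le_exp (by positivity)
  | succ k ih =>
    -- integrability
    have hint : ∀ (V : Finset (Z d)) (k : ℕ),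
        Integrable (fun B : Z d × ℕ → Sg => Real.exp (Real.log 2 / m * (bn ρ (bf G B) V k : ℝ)))
          (Measure.infinitePi fun _ : Z d × ℕ => ν) := by
      intro V k
      refine int_of_dep _ ((th V (3 * ρ * k + ρ)) ×ˢ (Finset.range k)) (fun _ => g0) ?_ _
      intro B B' hB
      rw [bn_dep G ρ hG V k B B' hB]
    have hmp := glue_mp (d := d) ν
    have hcv : ∫ B, Real.exp (Real.log 2 / m * (bn ρ (bf G B) V (k + 1) : ℝ))
          ∂(Measure.infinitePi fun _ : Z d × ℕ => ν) =
        ∫ z, Real.exp (Real.log 2 / m * (bn ρ (bf G (glue z)) V (k + 1) : ℝ))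
          ∂((Measure.infinitePi fun _ : Z d => ν).prod (Measure.infinitePi fun _ : Z d × ℕ => ν)) := by
      conv_lhs => rw [← hmp.map_eq]
      rw [integral_map glue_meas.aemeasurable]
      rw [hmp.map_eq]
      exact (hint V (k + 1)).aestronglyMeasurable
    have hintz : Integrable (fun z : (Z d → Sg) × (Z d × ℕ → Sg) =>
        Real.exp (Real.log 2 / m * (bn ρ (bf G (glue z)) V (k + 1) : ℝ)))
        ((Measure.infinitePi fun _ : Z d => ν).prod (Measure.infinitePi fun _ : Z d × ℕ => ν)) :=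
      hmp.integrable_comp_of_integrable (hint V (k + 1))
    rw [hcv, integral_prod _ hintz]
    set W : (Z d → Sg) → Finset (Z d) :=
      fun a => bp (fun u _ => Bd G (fun x => a (u + x))) 0 V with hW
    set θ : ℝ := (Real.log 2 + 3 * p * L) / m with hθ
    have hθ0 : 0 ≤ θ := by positivity
    have hstep : ∀ a : Z d → Sg,
        ∫ B, Real.exp (Real.log 2 / m * (bn ρ (bf G (glue (a, B))) V (k + 1) : ℝ))
          ∂(Measure.infinitePi fun _ : Z d × ℕ => ν) ≤ Real.exp (θ * ((W a).card : ℝ)) := by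
      intro a
      have h1 : ∀ B : Z d × ℕ → Sg,
          Real.exp (Real.log 2 / m * (bn ρ (bf G (glue (a, B))) V (k + 1) : ℝ)) =
          Real.exp (Real.log 2 / m * ((W a).card : ℝ)) *
            Real.exp (Real.log 2 / m * (bn ρ (bf G B) (th (W a) (3 * ρ)) k : ℝ)) := by
        intro B
        rw [bn_glue, ← Real.exp_add]
        congr 1
        push_cast
        ring
      simp only [h1]
      rw [integral_const_mul]
      refine (mul_le_mul_of_nonneg_left (ih (th (W a) (3 * ρ))) (Real.exp_nonneg _)).trans ?_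
      rw [← Real.exp_add]
      apply Real.exp_le_exp.2
      have h2 : ((th (W a) (3 * ρ)).card : ℝ) ≤ ((W a).card : ℝ) * L := by
        have h3 := th_card_le (W a) (3 * ρ)
        have h4 : ((th (W a) (3 * ρ)).card : ℝ) ≤ (((W a).card * (2 * (3 * ρ) + 1) ^ d : ℕ) : ℝ) := by
          exact_mod_cast h3
        refine h4.trans (le_of_eq ?_)
        rw [hL]
        push_cast
        ring
      have h5 : 3 * p * ((th (W a) (3 * ρ)).card : ℝ) / m ≤ 3 * p * (((W a).card : ℝ) * L) / m := by
        gcongr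
      rw [hθ]
      have h6 : (Real.log 2 + 3 * p * L) / m * ((W a).card : ℝ) =
          Real.log 2 / m * ((W a).card : ℝ) + 3 * p * (((W a).card : ℝ) * L) / m := by
        field_simp
      rw [h6]
      linarith
    have hintW : Integrable (fun a : Z d → Sg => Real.exp (θ * ((W a).card : ℝ)))
        (Measure.infinitePi fun _ : Z d => ν) := by
      refine int_of_dep _ (th V ρ) (fun _ => g0) ?_ _
      intro a a' ha
      simp only [hW]
      rw [bp0_dep G ρ hG V a a' ha]
    refine (integral_mono_of_nonneg (Eventually.of_forall fun a => integral_nonneg fun B =>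
      Real.exp_nonneg _) hintW (Eventually.of_forall hstep)).trans ?_
    refine (h d Sg St ν G ρ hG p hp V θ hθ0).trans ?_
    apply Real.exp_le_exp.2
    have h7 : (2 * (ρ : ℝ) + 1) ^ d * θ ≤ Real.log 4 := by
      have h8 : (2 * (ρ : ℝ) + 1) ^ d * θ = Real.log 2 + 3 * p * L := by
        rw [hθ, ← hmdef]
        field_simp
      have h9 : Real.log 4 = Real.log 2 + Real.log 2 := by
        rw [← Real.log_mul (by norm_num) (by norm_num)]
        norm_num
      rw [h8, h9]
      linarith
    have h10 : Real.exp ((2 * (ρ : ℝ) + 1) ^ d * θ) - 1 ≤ 3 := by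
      have h11 := Real.exp_le_exp.2 h7
      rw [Real.exp_log (by norm_num)] at h11
      linarith
    rw [← hmdef] at h10 ⊢
    have h12 : p * (Real.exp (m * θ) - 1) ≤ 3 * p := by
      nlinarith
    gcongr

end Pool.Agent.H152.FV
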